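import Mathlib

namespace Pool.Agent.H.MP_b82347_co

/-- odd closed sequence -/
def OddSeq {W : Type} (G : SimpleGraph W) (n : ℕ) : Prop :=
  Odd n ∧ ∃ g : ℕ → W, g n = g 0 ∧ ∀ i, i < n → G.Adj (g i) (g (i + 1))

structure Cyc {V : Type} (A : V → V → Prop) (n : ℕ) (g : ℕ → V) : Prop where
  odd : n % 2 = 1
  inj : ∀ i j, g i = g j ↔ i % n = j % n
  edge : ∀ a b, A a b → ∃ i, (a = g i ∧ b = g (i + 1)) ∨ (b = g i ∧ a = g (i + 1))

lemma Cyc.shift {V : Type} {A : V → V → Prop} {n : ℕ} {g : ℕ → V} (h : Cyc A n g) (p : ℕ) :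
    Cyc A n (fun i => g (i + p)) := by
  have hn : 0 < n := by have := h.odd; omega
  refine ⟨h.odd, fun i j => ?_, fun a b hab => ?_⟩
  · rw [h.inj]
    exact ⟨fun e => Nat.ModEq.add_right_cancel' p e, fun e => Nat.ModEq.add_right p e⟩
  · obtain ⟨i, hi⟩ := h.edge a b hab
    refine ⟨i + (n - 1) * p, ?_⟩
    have key : ∀ j, g (j + (n - 1) * p + p) = g j := by
      intro j
      rw [h.inj]
      have : j + (n - 1) * p + p = j + n * p := by
        obtain ⟨m, rfl⟩ : ∃ m, n = m + 1 := ⟨n - 1, by omega⟩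
        simp; ring
      rw [this, Nat.add_mul_mod_self_left]
    have e2 : i + (n - 1) * p + 1 + p = (i + 1) + (n - 1) * p + p := by ring
    simp only [e2, key]
    exact hi

lemma exists_cyc {W : Type} (G : SimpleGraph W) (h2 : ¬ G.Colorable 2)
    (hc : ∀ x y, G.Adj x y → ∃ c : W → Fin 2, ∀ a b, G.Adj a b → s(a, b) ≠ s(x, y) → c a ≠ c b) :
    ∃ n g, Cyc G.Adj n g := by
  classical
  have hex : ∃ n, OddSeq G n := by
    rw [SimpleGraph.two_colorable_iff_forall_loop_even] at h2
    push Not at h2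
    obtain ⟨u, w, hw⟩ := h2
    exact ⟨w.length, Nat.not_even_iff_odd.1 hw, w.getVert, by simp,
      fun i hi => w.adj_getVert_succ hi⟩
  set n := Nat.find hex with hn
  obtain ⟨hodd, g, hg0, hg⟩ : OddSeq G n := Nat.find_spec hex
  have hmin : ∀ m, m < n → ¬ OddSeq G m := fun m hm => Nat.find_min hex hm
  have ho : n % 2 = 1 := Nat.odd_iff.1 hodd
  have hinj : ∀ i j, i < j → j < n → g i ≠ g j := by
    intro i j hij hj e
    by_cases c : (j - i) % 2 = 1
    · refine hmin (j - i) (by omega) ⟨Nat.odd_iff.2 c, fun t => g (i + t), ?_, fun t ht => ?_⟩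
      · simp only [add_zero]; rw [show i + (j - i) = j by omega, e]
      · exact hg (i + t) (by omega)
    · refine hmin (n - (j - i)) (by omega) ⟨Nat.odd_iff.2 (by omega),
        fun t => if t ≤ i then g t else g (t + (j - i)), ?_, fun t ht => ?_⟩
      · simp only [Nat.zero_le, if_true]
        rw [if_neg (by omega), show n - (j - i) + (j - i) = n by omega, hg0]
      · by_cases c1 : t + 1 ≤ i
        · simp only [c1, show t ≤ i by omega, if_true]; exact hg t (by omega)
        · by_cases c2 : t ≤ i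
          · have : t = i := by omega
            subst this
            simp only [c1, le_refl, if_true, if_false]
            rw [e, show t + 1 + (j - t) = j + 1 by omega]
            exact hg j hj
          · simp only [c1, c2, if_false]
            rw [show t + 1 + (j - i) = t + (j - i) + 1 by omega]
            exact hg _ (by omega)
  have hpos : 0 < n := by omega
  refine ⟨n, fun i => g (i % n), ho, fun i j => ⟨fun e => ?_, fun e => by rw [e]⟩, fun a b hab => ?_⟩
  · have h1 := Nat.mod_lt i hpos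
    have h2 := Nat.mod_lt j hpos
    rcases lt_trichotomy (i % n) (j % n) with c | c | c
    · exact absurd e (hinj _ _ c h2)
    · exact c
    · exact absurd e.symm (hinj _ _ c h1)
  · by_contra hne
    obtain ⟨c, hcol⟩ := hc a b hab
    have e1 : ∀ i, i < n → g ((i + 1) % n) = g (i + 1) := by
      intro i hi
      by_cases c : i + 1 < n
      · rw [Nat.mod_eq_of_lt c]
      · rw [show i + 1 = n by omega, Nat.mod_self, hg0]
    have step : ∀ i, i < n → c (g i) ≠ c (g (i + 1)) := by
      intro i hi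
      refine hcol _ _ (hg i hi) (fun e => hne ⟨i, ?_⟩)
      simp only [Nat.mod_eq_of_lt hi, e1 i hi]
      rcases Sym2.eq_iff.1 e with ⟨a1, a2⟩ | ⟨a1, a2⟩
      · exact Or.inl ⟨a1.symm, a2.symm⟩
      · exact Or.inr ⟨a1.symm, a2.symm⟩
    have par : ∀ i, i ≤ n → ((c (g i)).val + i) % 2 = (c (g 0)).val := by
      intro i
      induction i with
      | zero => intro _; have := (c (g 0)).2; omega
      | succ i ih =>
        intro hi
        have a1 := ih (by omega)
        have a2 : (c (g i)).val ≠ (c (g (i + 1))).val := fun e => step i (by omega) (Fin.ext e)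
        have := (c (g i)).2
        have := (c (g (i + 1))).2
        omega
    have := par n le_rfl
    rw [hg0] at this
    have := (c (g 0)).2
    omega

open Classical in
/-- two-colouring of the cycle cut at position s -/
noncomputable def cut {V : Type} (n : ℕ) (g : ℕ → V) (s : ℕ) (v : V) : Bool :=
  decide (∃ i, i < n ∧ g i = v ∧ (i + if i ≤ s then 1 else 0) % 2 = 1)

lemma cut_val {V : Type} {A : V → V → Prop} {n : ℕ} {g : ℕ → V} (h : Cyc A n g) (s i : ℕ)
    (hi : i < n) : cut n g s (g i) = true ↔ (i + if i ≤ s then 1 else 0) % 2 = 1 := by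
  unfold cut
  simp only [decide_eq_true_eq]
  refine ⟨fun ⟨j, h1, h2, h3⟩ => ?_, fun e => ⟨i, hi, rfl, e⟩⟩
  rw [h.inj, Nat.mod_eq_of_lt h1, Nat.mod_eq_of_lt hi] at h2
  rwa [← h2]

lemma cut_edge {V : Type} {A : V → V → Prop} {n : ℕ} {g : ℕ → V} (h : Cyc A n g) (s : ℕ)
    (hs : s < n) (a b : V) (hab : A a b) :
    cut n g s a ≠ cut n g s b ∨ (a = g s ∧ b = g (s + 1)) ∨ (b = g s ∧ a = g (s + 1)) := by
  have ho := h.odd
  have hpos : 0 < n := by omega
  have key : ∀ i, cut n g s (g i) ≠ cut n g s (g (i + 1)) ∨ (g i = g s ∧ g (i + 1) = g (s + 1)) := by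
    intro i
    have e1 : g i = g (i % n) := by rw [h.inj]; simp
    have e2 : g (i + 1) = g (i % n + 1) := by rw [h.inj]; simp
    have hlt := Nat.mod_lt i hpos
    rw [e1, e2]
    generalize i % n = j at hlt
    by_cases c : j = s
    · right; rw [c]; exact ⟨rfl, rfl⟩
    left
    intro e
    have a1 := cut_val h s j hlt
    by_cases c2 : j + 1 < n
    · have a2 := cut_val h s (j + 1) c2
      rw [e, a2] at a1
      split_ifs at a1 <;> omega
    · have e3 : g (j + 1) = g 0 := by rw [h.inj, show j + 1 = n by omega]; simp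
      have a2 := cut_val h s 0 hpos
      rw [e, e3, a2] at a1
      split_ifs at a1 <;> omega
  obtain ⟨i, ⟨rfl, rfl⟩ | ⟨rfl, rfl⟩⟩ := h.edge a b hab
  · rcases key i with k | k
    · exact Or.inl k
    · exact Or.inr (Or.inl k)
  · rcases key i with k | k
    · exact Or.inl k.symm
    · exact Or.inr (Or.inr k)

lemma change {α : Type} (f : ℕ → α) (a b : ℕ) (hab : a ≤ b) (h : f a ≠ f b) :
    ∃ s, a ≤ s ∧ s < b ∧ f s ≠ f (s + 1) := by
  induction b, hab using Nat.le_induction with
  | base => exact absurd rfl h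
  | succ b hb ih =>
    by_cases c : f a = f b
    · exact ⟨b, hb, by omega, by rw [← c]; exact h⟩
    · obtain ⟨s, s1, s2, s3⟩ := ih c
      exact ⟨s, s1, by omega, s3⟩

theorem core {V : Type} (A B : V → V → Prop) (n : ℕ) (g : ℕ → V) (h : Cyc A n g) (m : ℕ)
    (hm : 3 ≤ m) (Airr : ∀ a, ¬ A a a) (Birr : ∀ a, ¬ B a a) (Bsym : ∀ a b, B a b → B b a)
    (hB : ∀ x y, B x y → ∃ c : V → Fin m, ∀ a b, B a b → s(a, b) ≠ s(x, y) → c a ≠ c b)
    (z w1 w2 w3 : V) (b1 : B z w1) (b2 : B z w2) (b3 : B z w3)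
    (d12 : w1 ≠ w2) (d13 : w1 ≠ w3) (d23 : w2 ≠ w3) :
    ∃ col : V → Fin m × Bool, ∀ a b, A a b ∨ B a b → col a ≠ col b := by
  classical
  have ho := h.odd
  have hpos : 0 < n := by omega
  have prod : ∀ (g : ℕ → V), Cyc A n g → ∀ x y (c : V → Fin m) (c1 : V → Bool) (s : ℕ), s < n →
      (∀ a b, B a b → s(a, b) ≠ s(x, y) → c a ≠ c b) → c (g s) ≠ c (g (s + 1)) →
      (∀ i, c1 (g i) = cut n g s (g i)) → c1 x ≠ c1 y →
      ∃ col : V → Fin m × Bool, ∀ a b, A a b ∨ B a b → col a ≠ col b := by
    intro g h x y c c1 s hs hc h1 h2 h3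
    refine ⟨fun v => (c v, c1 v), fun a b hab e => ?_⟩
    simp only [Prod.mk.injEq] at e
    rcases hab with hab | hab
    · rcases cut_edge h s hs a b hab with k | ⟨rfl, rfl⟩ | ⟨rfl, rfl⟩
      · obtain ⟨i, ⟨rfl, rfl⟩ | ⟨rfl, rfl⟩⟩ := h.edge a b hab
        · rw [← h2, ← h2] at k; exact k e.2
        · rw [← h2, ← h2] at k; exact k e.2
      · exact h1 e.1
      · exact h1 e.1.symm
    · by_cases c : s(a, b) = s(x, y)
      · rcases Sym2.eq_iff.1 c with ⟨rfl, rfl⟩ | ⟨rfl, rfl⟩
        · exact h3 e.2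
        · exact h3 e.2.symm
      · exact hc a b hab c e.1
  have out : ∀ x y, B x y → (∀ i, g i ≠ x) →
      ∃ col : V → Fin m × Bool, ∀ a b, A a b ∨ B a b → col a ≠ col b := by
    intro x y hxy hx
    obtain ⟨c, hc⟩ := hB x y hxy
    have hne : y ≠ x := fun e => Birr x (by rw [e] at hxy; exact hxy)
    by_cases hs : ∃ s, s < n ∧ c (g s) ≠ c (g (s + 1))
    · obtain ⟨s, s1, s2⟩ := hs
      refine prod g h x y c (fun v => if v = x then !(cut n g s y) else cut n g s v) s s1 hc s2
        (fun i => if_neg (hx i)) ?_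
      simp [hne]
    · push Not at hs
      have hconst : ∀ i, c (g i) = c (g 0) := by
        have : ∀ i, i ≤ n → c (g i) = c (g 0) := by
          intro i
          induction i with
          | zero => intro _; rfl
          | succ i ih => intro hi; rw [← hs i (by omega), ih (by omega)]
        intro i
        rw [show g i = g (i % n) by rw [h.inj]; simp]
        exact this _ (Nat.mod_lt i hpos).le
      obtain ⟨p, q, hpq, hp, hq⟩ : ∃ p q : Fin m, p ≠ q ∧ p ≠ c (g 0) ∧ q ≠ c (g 0) := by
        have : 1 < (Finset.univ.erase (c (g 0))).card := by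
          rw [Finset.card_erase_of_mem (Finset.mem_univ _)]; simp; omega
        obtain ⟨p, hp, q, hq, hpq⟩ := Finset.one_lt_card.1 this
        exact ⟨p, q, hpq, (Finset.mem_erase.1 hp).1, (Finset.mem_erase.1 hq).1⟩
      have hcut : ∀ v, cut n g 0 v = true → c v = c (g 0) := by
        intro v hv
        unfold cut at hv
        simp only [decide_eq_true_eq] at hv
        obtain ⟨i, -, rfl, -⟩ := hv
        exact hconst i
      refine ⟨fun v => if v = x then (q, true) else if v = g 0 then (p, true) else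
        (c v, cut n g 0 v), fun a b hab e => ?_⟩
      have hab' : a ≠ b := by
        rintro rfl
        rcases hab with k | k
        exacts [Airr _ k, Birr _ k]
      by_cases a1 : a = x <;> by_cases a2 : b = x <;> by_cases a3 : a = g 0 <;>
        by_cases a4 : b = g 0 <;> simp only [a1, a2, a3, a4, if_true, if_false, Prod.mk.injEq,
          hx 0, and_true] at e
      all_goals first
        | exact hab' (a1.trans a2.symm)
        | exact hab' (a3.trans a4.symm)
        | exact hx 0 (a3.symm.trans a1)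
        | exact hx 0 (a4.symm.trans a2)
        | exact hpq e
        | exact hpq e.symm
        | exact hq (e.1.trans (hcut _ e.2.symm))
        | exact hp (e.1.trans (hcut _ e.2.symm))
        | exact hq (e.1.symm.trans (hcut _ e.2))
        | exact hp (e.1.symm.trans (hcut _ e.2))
        | skip
      rcases hab with hab | hab
      · rcases cut_edge h 0 hpos a b hab with k | k | k
        · exact k e.2
        · exact a3 k.1
        · exact a4 k.1
      · refine hc a b hab (fun c => ?_) e.1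
        rcases Sym2.eq_iff.1 c with k | k
        · exact a1 k.1
        · exact a2 k.2
  by_cases c0 : ∀ i, g i ≠ z
  · exact out z w1 b1 c0
  by_cases c1 : ∀ i, g i ≠ w1
  · exact out w1 z (Bsym _ _ b1) c1
  by_cases c2 : ∀ i, g i ≠ w2
  · exact out w2 z (Bsym _ _ b2) c2
  by_cases c3 : ∀ i, g i ≠ w3
  · exact out w3 z (Bsym _ _ b3) c3
  push Not at c0 c1 c2 c3
  obtain ⟨p, rfl⟩ := c0
  have h' := h.shift p
  set g' : ℕ → V := fun i => g (i + p) with hg'
  have z0 : g p = g' 0 := by simp [hg']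
  rw [z0] at b1 b2 b3
  have idx : ∀ w, (∃ i, g i = w) → B (g' 0) w → ∃ t, 0 < t ∧ t < n ∧ g' t = w := by
    rintro w ⟨i, rfl⟩ hb
    have e : g' ((i + (n - 1) * p) % n) = g i := by
      rw [show g' ((i + (n - 1) * p) % n) = g' (i + (n - 1) * p) by rw [h'.inj]; simp]
      simp only [hg']
      rw [h.inj]
      have : i + (n - 1) * p + p = i + n * p := by
        obtain ⟨m, rfl⟩ : ∃ m, n = m + 1 := ⟨n - 1, by omega⟩
        simp; ring
      rw [this, Nat.add_mul_mod_self_left]
    refine ⟨_, Nat.pos_of_ne_zero (fun e0 => ?_), Nat.mod_lt _ hpos, e⟩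
    rw [e0] at e
    rw [← e] at hb
    exact Birr _ hb
  have two : ∀ t u, 0 < t → t < u → u < n → t % 2 = u % 2 → B (g' 0) (g' t) → B (g' 0) (g' u) →
      ∃ col : V → Fin m × Bool, ∀ a b, A a b ∨ B a b → col a ≠ col b := by
    intro t u t0 tu un par bt bu
    have ne : g' t ≠ g' u := by
      rw [Ne, h'.inj, Nat.mod_eq_of_lt un, Nat.mod_eq_of_lt (by omega)]; omega
    have ne2 : ∀ {a b : V}, B (g' 0) a → a ≠ b → s(g' 0, a) ≠ s(g' 0, b) := by
      intro a b hb hab e
      rcases Sym2.eq_iff.1 e with k | k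
      · exact hab k.2
      · rw [k.2] at hb; exact Birr _ hb
    by_cases ev : u % 2 = 0
    · obtain ⟨c, hc⟩ := hB _ _ bu
      obtain ⟨s, s1, s2, s3⟩ := change (fun i => c (g' i)) 0 t (by omega) (hc _ _ bt (ne2 bt ne))
      refine prod g' h' _ _ c (cut n g' s) s (by omega) hc s3 (fun _ => rfl) (fun e => ?_)
      have a1 := cut_val h' s 0 hpos
      have a2 := cut_val h' s u un
      rw [e, a2] at a1
      split_ifs at a1 <;> omega
    · obtain ⟨c, hc⟩ := hB _ _ bt
      have en : g' n = g' 0 := by rw [h'.inj]; simp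
      obtain ⟨s, s1, s2, s3⟩ := change (fun i => c (g' i)) u n (by omega)
        (by simp only [en]; exact (hc _ _ bu (ne2 bu ne.symm)).symm)
      refine prod g' h' _ _ c (cut n g' s) s (by omega) hc s3 (fun _ => rfl) (fun e => ?_)
      have a1 := cut_val h' s 0 hpos
      have a2 := cut_val h' s t (by omega)
      rw [e, a2] at a1
      split_ifs at a1 <;> omega
  have two' : ∀ t u, 0 < t → 0 < u → t < n → u < n → g' t ≠ g' u → t % 2 = u % 2 →
      B (g' 0) (g' t) → B (g' 0) (g' u) →
      ∃ col : V → Fin m × Bool, ∀ a b, A a b ∨ B a b → col a ≠ col b := by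
    intro t u t0 u0 tn un ne par bt bu
    rcases lt_trichotomy t u with k | k | k
    · exact two t u t0 k un par bt bu
    · exact absurd (by rw [k]) ne
    · exact two u t u0 k tn par.symm bu bt
  obtain ⟨t1, p1, q1, rfl⟩ := idx w1 c1 b1
  obtain ⟨t2, p2, q2, rfl⟩ := idx w2 c2 b2
  obtain ⟨t3, p3, q3, rfl⟩ := idx w3 c3 b3
  by_cases k1 : t1 % 2 = t2 % 2
  · exact two' t1 t2 p1 p2 q1 q2 d12 k1 b1 b2
  by_cases k2 : t1 % 2 = t3 % 2
  · exact two' t1 t3 p1 p3 q1 q3 d13 k2 b1 b3
  exact two' t2 t3 p2 p3 q2 q3 d23 (by omega) b2 b3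

end Pool.Agent.H.MP_b82347_co
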